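import Pool.Agent.W84.FP.Defs

/-!
# Few primitive elements have norm prime to a set of split primes
-/

set_option autoImplicit false

namespace Pool.Agent.W64.FP

open Finset
open Pool.Agent.W78.GA Pool.Agent.W84.FP

/-- square roots of `-1` -/
theorem exists_root (p : ℕ) (hp : p.Prime ∧ p % 4 = 1) : ∃ r : ℤ, (p : ℤ) ∣ r ^ 2 + 1 := by
  have := Fact.mk hp.1
  obtain ⟨y, hy⟩ := (ZMod.exists_sq_eq_neg_one_iff (p := p)).2 (by omega)
  refine ⟨(y.val : ℤ), ?_⟩
  rw [← ZMod.intCast_zmod_eq_zero_iff_dvd]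
  push_cast
  rw [ZMod.natCast_zmod_val, pow_two, ← hy]
  ring

/-- the chinese remainder theorem for two lattices -/
theorem exists_crt (p p' : ℕ) (hp : p.Prime) (hp' : p'.Prime) (hne : p ≠ p') (r r' : ℤ) :
    ∃ s : ℤ, ∀ z : Gi, lat (p * p') s z ↔ lat p r z ∧ lat p' r' z := by
  have hc : IsCoprime (p : ℤ) (p' : ℤ) :=
    Nat.isCoprime_iff_coprime.2 ((Nat.coprime_primes hp hp').2 hne)
  obtain ⟨a, b, hab⟩ := hc
  refine ⟨r * (b * p') + r' * (a * p), fun z => ?_⟩
  have e1 : z.re + (r * (b * p') + r' * (a * p)) * z.im =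
      (z.re + r * z.im) + p * (a * (r' - r) * z.im) := by
    have : b * (p' : ℤ) = 1 - a * p := by linarith
    rw [this]
    ring
  have e2 : z.re + (r * (b * p') + r' * (a * p)) * z.im =
      (z.re + r' * z.im) + p' * (b * (r - r') * z.im) := by
    have : a * (p : ℤ) = 1 - b * p' := by linarith
    rw [this]
    ring
  have i1 : (p : ℤ) ∣ z.re + (r * (b * p') + r' * (a * p)) * z.im ↔ lat p r z := by
    rw [e1]
    exact (dvd_add_left (Dvd.intro _ rfl))
  have i2 : (p' : ℤ) ∣ z.re + (r * (b * p') + r' * (a * p)) * z.im ↔ lat p' r' z := by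
    rw [e2]
    exact (dvd_add_left (Dvd.intro _ rfl))
  rw [← i1, ← i2]
  unfold lat
  push_cast
  constructor
  · intro h
    exact ⟨(Dvd.intro _ rfl).trans h, (Dvd.intro_left _ rfl).trans h⟩
  · rintro ⟨h1, h2⟩
    exact IsCoprime.mul_dvd ⟨a, b, hab⟩ h1 h2

open scoped Classical in
theorem var (hlat : S_LAT 0 1) : S_VAR := by
  obtain ⟨C₀, hC₀, hl, -⟩ := hlat
  have hK : 0 ≤ kap 0 1 := by unfold kap; positivity
  refine ⟨kap 0 1 + 1, by linarith, fun P hP => ?_⟩
  have hroot : ∀ p : ℕ, ∃ r : ℤ, (p.Prime ∧ p % 4 = 1) → (p : ℤ) ∣ r ^ 2 + 1 := by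
    intro p
    by_cases h : p.Prime ∧ p % 4 = 1
    · obtain ⟨r, hr⟩ := exists_root p h
      exact ⟨r, fun _ => hr⟩
    · exact ⟨0, fun h' => absurd h' h⟩
  choose r hr using hroot
  set S : ℝ := ∑ p ∈ P, 1 / (p : ℝ) with hS
  have hS0 : 0 ≤ S := Finset.sum_nonneg fun p _ => by positivity
  set n : ℝ := (P.card : ℝ) with hn
  have hn0 : 0 ≤ n := Nat.cast_nonneg _
  rcases hS0.eq_or_lt with hS1 | hS1
  · refine ⟨0, fun X hX => ?_⟩
    rw [← hS1, mul_zero]
    positivity
  refine ⟨max 1 ((C₀ * (n + S) ^ 2 / S) ^ 2), fun X hX => ?_⟩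
  have hX1 : 1 ≤ X := (le_max_left _ _).trans hX
  have hX0 : 0 ≤ X := by linarith
  have hsq : C₀ * (n + S) ^ 2 / S ≤ Real.sqrt X := by
    apply Real.le_sqrt_of_sq_le
    exact (le_max_right _ _).trans hX
  have hsX : Real.sqrt X * Real.sqrt X = X := Real.mul_self_sqrt hX0
  have hs0 : 0 ≤ Real.sqrt X := Real.sqrt_nonneg _
  -- the indicator functions
  set B := ball 0 1 X with hB
  let g : ℕ → Gi → ℝ := fun p z => if lat p (r p) z then 1 else 0
  let f : Gi → ℝ := fun z => ∑ p ∈ P, g p z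
  -- the first moment
  have hm1 : ∀ p ∈ P, kap 0 1 * X / p - C₀ * Real.sqrt X ≤ ∑ z ∈ B, g p z := by
    intro p hp
    have h1 := hl X p (r p) hX1 (hP p hp).1.one_le
    have h2 : ∑ z ∈ B, g p z = ((B.filter (lat p (r p))).card : ℝ) := by
      simp only [g, Finset.sum_boole]
    rw [h2]
    have := (abs_le.1 h1).1
    linarith
  -- the second moment
  have hm2 : ∀ p ∈ P, ∀ p' ∈ P, ∑ z ∈ B, g p z * g p' z ≤
      kap 0 1 * X * (1 / p * (1 / p') + if p = p' then 1 / (p : ℝ) else 0) + C₀ * Real.sqrt X := by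
    intro p hp p' hp'
    by_cases hpp : p = p'
    · subst hpp
      rw [if_pos rfl]
      have h1 := hl X p (r p) hX1 (hP p hp).1.one_le
      have h2 : ∑ z ∈ B, g p z * g p z = ((B.filter (lat p (r p))).card : ℝ) := by
        have : ∀ z ∈ B, g p z * g p z = g p z := by
          intro z _
          simp only [g]
          split_ifs <;> simp
        rw [Finset.sum_congr rfl this]
        simp only [g, Finset.sum_boole]
      rw [h2]
      have h3 := (abs_le.1 h1).2
      have h4 : 0 ≤ kap 0 1 * X * (1 / p * (1 / p)) := by positivity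
      have h5 : kap 0 1 * X * (1 / p * (1 / p) + 1 / (p : ℝ)) =
        kap 0 1 * X * (1 / p * (1 / p)) + kap 0 1 * X / p := by ring
      rw [h5]
      linarith
    · rw [if_neg hpp]
      obtain ⟨s, hs⟩ := exists_crt p p' (hP p hp).1 (hP p' hp').1 hpp (r p) (r p')
      have h1 := hl X (p * p') s hX1 (Nat.mul_pos (hP p hp).1.pos (hP p' hp').1.pos)
      have h2 : ∑ z ∈ B, g p z * g p' z = ((B.filter (lat (p * p') s)).card : ℝ) := by
        have : ∀ z ∈ B, g p z * g p' z = if lat (p * p') s z then (1 : ℝ) else 0 := by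
          intro z _
          simp only [g]
          by_cases ha : lat p (r p) z <;> by_cases hb : lat p' (r p') z
          · rw [if_pos ha, if_pos hb, if_pos ((hs z).2 ⟨ha, hb⟩), mul_one]
          · rw [if_pos ha, if_neg hb, if_neg (fun h => hb ((hs z).1 h).2), mul_zero]
          · rw [if_neg ha, if_neg (fun h => ha ((hs z).1 h).1), zero_mul]
          · rw [if_neg ha, if_neg (fun h => ha ((hs z).1 h).1), zero_mul]
        rw [Finset.sum_congr rfl this, Finset.sum_boole]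
      rw [h2]
      have h3 := (abs_le.1 h1).2
      have hpR : (0 : ℝ) < p := by exact_mod_cast (hP p hp).1.pos
      have hpR' : (0 : ℝ) < p' := by exact_mod_cast (hP p' hp').1.pos
      have h5 : kap 0 1 * X / ((p * p' : ℕ) : ℝ) = kap 0 1 * X * (1 / p * (1 / p') + 0) := by
        push_cast
        field_simp
        ring
      rw [h5] at h3
      linarith
  -- the number of all elements
  have hm0 : (B.card : ℝ) ≤ kap 0 1 * X + C₀ * Real.sqrt X := by
    have h1 := hl X 1 0 hX1 le_rfl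
    have h2 : B.filter (lat 1 0) = B := by
      apply Finset.filter_true_of_mem
      intro z _
      unfold lat
      simp
    rw [h2] at h1
    have h3 := (abs_le.1 h1).2
    rw [Nat.cast_one, div_one] at h3
    linarith
  -- summation
  have hf1 : kap 0 1 * X * S - n * (C₀ * Real.sqrt X) ≤ ∑ z ∈ B, f z := by
    have h1 : ∑ z ∈ B, f z = ∑ p ∈ P, ∑ z ∈ B, g p z := Finset.sum_comm
    rw [h1]
    calc kap 0 1 * X * S - n * (C₀ * Real.sqrt X)
        = ∑ p ∈ P, (kap 0 1 * X / p - C₀ * Real.sqrt X) := by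
          rw [Finset.sum_sub_distrib, Finset.sum_const, nsmul_eq_mul, hS, Finset.mul_sum]
          congr 1
          apply Finset.sum_congr rfl
          intro p _
          ring
      _ ≤ _ := Finset.sum_le_sum hm1
  have hf2 : ∑ z ∈ B, f z ^ 2 ≤ kap 0 1 * X * (S ^ 2 + S) + n ^ 2 * (C₀ * Real.sqrt X) := by
    have h1 : ∑ z ∈ B, f z ^ 2 = ∑ p ∈ P, ∑ p' ∈ P, ∑ z ∈ B, g p z * g p' z := by
      have h2 : ∀ z ∈ B, f z ^ 2 = ∑ p ∈ P, ∑ p' ∈ P, g p z * g p' z := by
        intro z _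
        simp only [f]
        rw [pow_two, Finset.sum_mul_sum]
      rw [Finset.sum_congr rfl h2, Finset.sum_comm]
      apply Finset.sum_congr rfl
      intro p _
      rw [Finset.sum_comm]
    rw [h1]
    calc ∑ p ∈ P, ∑ p' ∈ P, ∑ z ∈ B, g p z * g p' z
        ≤ ∑ p ∈ P, ∑ p' ∈ P, (kap 0 1 * X * (1 / p * (1 / p') + if p = p' then 1 / (p : ℝ) else 0)
          + C₀ * Real.sqrt X) :=
          Finset.sum_le_sum fun p hp => Finset.sum_le_sum fun p' hp' => hm2 p hp p' hp'
      _ = kap 0 1 * X * (S ^ 2 + S) + n ^ 2 * (C₀ * Real.sqrt X) := by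
          have h3 : ∀ p ∈ P, ∑ p' ∈ P, (kap 0 1 * X * (1 / (p : ℝ) * (1 / (p' : ℝ)) +
              if p = p' then 1 / (p : ℝ) else 0) + C₀ * Real.sqrt X) =
              kap 0 1 * X * (1 / p * S + 1 / p) + n * (C₀ * Real.sqrt X) := by
            intro p hp
            rw [Finset.sum_add_distrib, Finset.sum_const, nsmul_eq_mul, ← Finset.mul_sum,
              Finset.sum_add_distrib, ← Finset.mul_sum, Finset.sum_ite_eq, if_pos hp]
          rw [Finset.sum_congr rfl h3, Finset.sum_add_distrib, Finset.sum_const, nsmul_eq_mul,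
            ← Finset.mul_sum, Finset.sum_add_distrib, ← Finset.sum_mul]
          ring
  have hvar : ∑ z ∈ B, (f z - S) ^ 2 ≤ kap 0 1 * X * S + (n + S) ^ 2 * (C₀ * Real.sqrt X) := by
    have h1 : ∑ z ∈ B, (f z - S) ^ 2 = ∑ z ∈ B, f z ^ 2 - 2 * S * ∑ z ∈ B, f z + B.card * S ^ 2 := by
      have : ∀ z ∈ B, (f z - S) ^ 2 = f z ^ 2 - 2 * S * f z + S ^ 2 := fun z _ => by ring
      rw [Finset.sum_congr rfl this, Finset.sum_add_distrib, Finset.sum_sub_distrib,
        Finset.sum_const, nsmul_eq_mul, ← Finset.mul_sum]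
    rw [h1]
    have h2 : 2 * S * (kap 0 1 * X * S - n * (C₀ * Real.sqrt X)) ≤ 2 * S * ∑ z ∈ B, f z :=
      mul_le_mul_of_nonneg_left hf1 (by positivity)
    have h3 : (B.card : ℝ) * S ^ 2 ≤ (kap 0 1 * X + C₀ * Real.sqrt X) * S ^ 2 :=
      mul_le_mul_of_nonneg_right hm0 (by positivity)
    nlinarith [hf2, h2, h3]
  -- the elements with `f z = 0`
  set F := (pball 0 1 X).filter (fun z => ∀ p ∈ P, ¬ p ∣ nm z) with hF
  have hsub : F ⊆ B := (Finset.filter_subset _ _).trans (Finset.filter_subset _ _)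
  have hfz : ∀ z ∈ F, f z = 0 := by
    intro z hz
    apply Finset.sum_eq_zero
    intro p hp
    have hnd := (Finset.mem_filter.1 hz).2 p hp
    simp only [g]
    rw [if_neg]
    intro hlt
    apply hnd
    have h4 : (p : ℤ) ∣ z.re ^ 2 + 0 * z.re * z.im + 1 * z.im ^ 2 := by
      have h5 : z.re ^ 2 + 0 * z.re * z.im + 1 * z.im ^ 2 =
          (z.re + r p * z.im) * (z.re - r p * z.im) + (r p ^ 2 + 1) * z.im ^ 2 := by ring
      rw [h5]
      exact dvd_add (hlt.mul_right _) ((hr p (hP p hp)).mul_right _)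
    exact Int.natCast_dvd.1 h4
  have hlow : (F.card : ℝ) * S ^ 2 ≤ ∑ z ∈ B, (f z - S) ^ 2 := by
    calc (F.card : ℝ) * S ^ 2 = ∑ z ∈ F, (f z - S) ^ 2 := by
          rw [Finset.sum_congr rfl (fun z hz => by rw [hfz z hz, zero_sub, neg_sq]),
            Finset.sum_const, nsmul_eq_mul]
      _ ≤ _ := Finset.sum_le_sum_of_subset_of_nonneg hsub fun z _ _ => sq_nonneg _
  -- conclusion
  have herr : (n + S) ^ 2 * (C₀ * Real.sqrt X) ≤ S * X := by
    rw [div_le_iff₀ hS1] at hsq
    calc (n + S) ^ 2 * (C₀ * Real.sqrt X) = C₀ * (n + S) ^ 2 * Real.sqrt X := by ring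
      _ ≤ Real.sqrt X * S * Real.sqrt X := mul_le_mul_of_nonneg_right hsq hs0
      _ = S * (Real.sqrt X * Real.sqrt X) := by ring
      _ = S * X := by rw [hsX]
  have hfin : (F.card : ℝ) * S * S ≤ (kap 0 1 + 1) * X * S := by nlinarith
  exact le_of_mul_le_mul_right hfin hS1

end Pool.Agent.W64.FP
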